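import Mathlib
import Pool.Agent.Helper23_TS.StmtsG
import Pool.Agent.Helper81_UBT.Ext1

/-! EX: a nonsplit place persists in extensions of degree prime to `n`. -/

set_option autoImplicit false

open Polynomial NumberField IsDedekindDomain

namespace Pool.Agent.TS.H32

open UBT

/-- the sum of the local degrees -/
theorem sum_ef (K L : Type) [Field K] [NumberField K] [Field L] [NumberField L] [Algebra K L]
    (v : Ideal (𝓞 K)) [v.IsPrime] [Fintype (v.primesOver (𝓞 L))] :
    ∑ q : v.primesOver (𝓞 L), q.1.ramificationIdx (𝓞 K) * q.1.inertiaDeg (𝓞 K) =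
      Module.finrank K L := by
  rw [Ideal.sum_ramification_inertia_eq_finrank v (𝓞 L)]
  exact (IsFractionRing.finrank_eq (𝓞 K) K (𝓞 L) L).symm

theorem ef_pos (K L : Type) [Field K] [NumberField K] [Field L] [NumberField L] [Algebra K L]
    (q : Ideal (𝓞 L)) [q.IsPrime] :
    0 < q.ramificationIdx (𝓞 K) * q.inertiaDeg (𝓞 K) :=
  Nat.mul_pos (Ideal.ramificationIdx_pos q (𝓞 K)) (Ideal.inertiaDeg_pos q (𝓞 K))

theorem ef_tower (K L M : Type) [Field K] [NumberField K] [Field L] [NumberField L]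
    [Field M] [NumberField M] [Algebra K L] [Algebra L M] [Algebra K M] [IsScalarTower K L M]
    (q : Ideal (𝓞 L)) (P : Ideal (𝓞 M)) [P.LiesOver q] :
    P.ramificationIdx (𝓞 K) * P.inertiaDeg (𝓞 K) =
      (q.ramificationIdx (𝓞 K) * q.inertiaDeg (𝓞 K)) *
        (P.ramificationIdx (𝓞 L) * P.inertiaDeg (𝓞 L)) := by
  rw [Ideal.ramificationIdx_tower (R := 𝓞 K) (S := 𝓞 L) (T := 𝓞 M) (q := q) (r := P),
    Ideal.inertiaDeg_tower (R := 𝓞 K) (S := 𝓞 L) (T := 𝓞 M) (q := q) (r := P)]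
  ring

theorem fin_primes (K L : Type) [Field K] [NumberField K] [Field L] [NumberField L] [Algebra K L]
    (v : Ideal (𝓞 K)) [v.IsPrime] : Finite (v.primesOver (𝓞 L)) :=
  (Algebra.QuasiFinite.finite_primesOver v).to_subtype

/-- at a nonsplit place all local degrees are equal to the degree -/
theorem ef_nonsplit (K L : Type) [Field K] [NumberField K] [Field L] [NumberField L] [Algebra K L]
    (v : Ideal (𝓞 K)) [v.IsPrime] (hns : Nonsplit K L v) (w : Ideal (𝓞 L)) [hw : w.IsPrime]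
    [hwv : w.LiesOver v] :
    w.ramificationIdx (𝓞 K) * w.inertiaDeg (𝓞 K) = Module.finrank K L := by
  classical
  have := fin_primes K L v
  let := Fintype.ofFinite (v.primesOver (𝓞 L))
  rw [← sum_ef K L v]
  let w' : v.primesOver (𝓞 L) := ⟨w, hw, hwv⟩
  symm
  refine Fintype.sum_eq_single w' ?_
  intro q hq
  exact absurd (Subtype.ext (hns q.1 w q.2.1 hw q.2.2 hwv)) hq

/-- `n` divides all local degrees of an extension of degree `n`: nonsplit -/
theorem nonsplit_of_dvd (K L : Type) [Field K] [NumberField K] [Field L] [NumberField L]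
    [Algebra K L] (v : Ideal (𝓞 K)) [v.IsPrime] (n : ℕ) (hn : Module.finrank K L = n)
    (h : ∀ w : Ideal (𝓞 L), w.IsPrime → w.LiesOver v →
      n ∣ w.ramificationIdx (𝓞 K) * w.inertiaDeg (𝓞 K)) : Nonsplit K L v := by
  classical
  intro P Q hP hQ hPv hQv
  by_contra hne
  have := fin_primes K L v
  let := Fintype.ofFinite (v.primesOver (𝓞 L))
  have h1 := sum_ef K L v
  let P' : v.primesOver (𝓞 L) := ⟨P, hP, hPv⟩
  let Q' : v.primesOver (𝓞 L) := ⟨Q, hQ, hQv⟩
  have hne' : P' ≠ Q' := fun h => hne (congrArg Subtype.val h)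
  have h2 : ∑ q ∈ ({P', Q'} : Finset (v.primesOver (𝓞 L))),
      q.1.ramificationIdx (𝓞 K) * q.1.inertiaDeg (𝓞 K) ≤
      ∑ q : v.primesOver (𝓞 L), q.1.ramificationIdx (𝓞 K) * q.1.inertiaDeg (𝓞 K) :=
    Finset.sum_le_sum_of_subset (Finset.subset_univ _)
  rw [Finset.sum_pair hne', h1, hn] at h2
  have h3 : n ≤ P.ramificationIdx (𝓞 K) * P.inertiaDeg (𝓞 K) :=
    Nat.le_of_dvd (ef_pos K L P) (h P hP hPv)
  have h4 := ef_pos K L Q
  have h5 : P.ramificationIdx (𝓞 K) * P.inertiaDeg (𝓞 K) +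
    Q.ramificationIdx (𝓞 K) * Q.inertiaDeg (𝓞 K) ≤ n := h2
  omega

theorem exists_not_dvd (K K₁ : Type) [Field K] [NumberField K] [Field K₁] [NumberField K₁]
    [Algebra K K₁] (v : Ideal (𝓞 K)) [v.IsPrime] (n : ℕ) (hn : ¬ n ∣ Module.finrank K K₁) :
    ∃ v₁ : Ideal (𝓞 K₁), v₁.IsPrime ∧ v₁.LiesOver v ∧
      ¬ n ∣ v₁.ramificationIdx (𝓞 K) * v₁.inertiaDeg (𝓞 K) := by
  classical
  by_contra hcon
  push Not at hcon
  have := fin_primes K K₁ v
  let := Fintype.ofFinite (v.primesOver (𝓞 K₁))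
  apply hn
  rw [← sum_ef K K₁ v]
  exact Finset.dvd_sum fun q _ => hcon q.1 q.2.1 q.2.2

/-- the embedding of `L = K (θ)` -/
theorem embed (K L M : Type) [Field K] [Field L] [Field M] [Algebra K L] [Algebra K M]
    [FiniteDimensional K L] (θ : L) (hdeg : (minpoly K θ).natDegree = Module.finrank K L)
    (a : M) (ha : aeval a (minpoly K θ) = 0) : Nonempty (L →ₐ[K] M) := by
  have hint : IsIntegral K θ := IsIntegral.of_finite K θ
  have hirr : Irreducible (minpoly K θ) := minpoly.irreducible hint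
  have : Fact (Irreducible (minpoly K θ)) := ⟨hirr⟩
  let φ : AdjoinRoot (minpoly K θ) →ₐ[K] L :=
    AdjoinRoot.liftAlgHom (minpoly K θ) (Algebra.ofId K L) θ (minpoly.aeval K θ)
  let ψ : AdjoinRoot (minpoly K θ) →ₐ[K] M :=
    AdjoinRoot.liftAlgHom (minpoly K θ) (Algebra.ofId K M) a ha
  have hfd : FiniteDimensional K (AdjoinRoot (minpoly K θ)) :=
    (AdjoinRoot.powerBasis hirr.ne_zero).finite
  have hr : Module.finrank K (AdjoinRoot (minpoly K θ)) = Module.finrank K L := by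
    rw [(AdjoinRoot.powerBasis hirr.ne_zero).finrank, AdjoinRoot.powerBasis_dim, hdeg]
  have hinj : Function.Injective φ := φ.toRingHom.injective
  have hsurj : Function.Surjective φ :=
    (LinearMap.injective_iff_surjective_of_finrank_eq_finrank
      (f := φ.toLinearMap) hr).mp hinj
  exact ⟨ψ.comp (AlgEquiv.ofBijective φ ⟨hinj, hsurj⟩).symm.toAlgHom⟩

theorem adj (K₁ : Type) [Field K₁] [NumberField K₁] (G : K₁[X]) (hirr : Irreducible G) :
    ∃ (L₁ : Type) (_ : Field L₁) (_ : NumberField L₁) (_ : Algebra K₁ L₁) (θ₁ : L₁),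
      Module.finrank K₁ L₁ = G.natDegree ∧ aeval θ₁ G = 0 := by
  have : Fact (Irreducible G) := ⟨hirr⟩
  have hfd : FiniteDimensional K₁ (AdjoinRoot G) := (AdjoinRoot.powerBasis hirr.ne_zero).finite
  refine ⟨AdjoinRoot G, inferInstance, numberField_of_finite81 K₁ (AdjoinRoot G), inferInstance,
    AdjoinRoot.root G, ?_, ?_⟩
  · rw [(AdjoinRoot.powerBasis hirr.ne_zero).finrank, AdjoinRoot.powerBasis_dim]
  · rw [AdjoinRoot.aeval_eq, AdjoinRoot.mk_self]

theorem ex : ExStmt := by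
  intro K L K₁ _ _ _ _ _ _ _ _ n hn hfin hnd v hv hv0 hns θ hθ
  classical
  have hθint : IsIntegral K θ := IsIntegral.of_finite K θ
  have hmon : (minpoly K θ).Monic := minpoly.monic hθint
  have hdegf : (minpoly K θ).natDegree = n := by
    have h1 : (minpoly K θ).natDegree ∣ n := by rw [← hfin]; exact minpoly.degree_dvd hθint
    rcases (Nat.dvd_prime hn).mp h1 with h | h
    · exact absurd (minpoly.natDegree_eq_one_iff.mp h) hθ
    · exact h
  set F : K₁[X] := (minpoly K θ).map (algebraMap K K₁) with hF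
  have hFmon : F.Monic := hmon.map _
  have hFdeg : F.natDegree = n := by rw [hF, hmon.natDegree_map, hdegf]
  have hF1 : F.natDegree ≠ 0 := by rw [hFdeg]; exact hn.ne_zero
  have hirr : Irreducible F.factor := irreducible_factor F
  have hdvd : F.factor ∣ F := factor_dvd_of_natDegree_ne_zero hF1
  obtain ⟨L₁, iF, hL₁, iA, θ₁, hdeg1, h0⟩ := adj K₁ F.factor hirr
  let _ : Algebra K L₁ := ((algebraMap K₁ L₁).comp (algebraMap K K₁)).toAlgebra
  have _ : IsScalarTower K K₁ L₁ := IsScalarTower.of_algebraMap_eq fun _ => rfl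
  have hroot1 : aeval θ₁ F = 0 := by
    obtain ⟨G, hG⟩ := hdvd
    have h1 : aeval θ₁ F = aeval θ₁ F.factor * aeval θ₁ G := by
      rw [← map_mul, ← hG]
    rw [h1, h0, zero_mul]
  have hroot : aeval θ₁ (minpoly K θ) = 0 := by
    rw [hF, aeval_map_algebraMap] at hroot1
    exact hroot1
  obtain ⟨ψ⟩ := embed K L L₁ θ (by rw [hdegf, hfin]) θ₁ hroot
  let _ : Algebra L L₁ := ψ.toRingHom.toAlgebra
  have _ : IsScalarTower K L L₁ := IsScalarTower.of_algebraMap_eq fun x => (ψ.commutes x).symm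
  have hr1 : Module.finrank K L * Module.finrank L L₁ = Module.finrank K L₁ :=
    Module.finrank_mul_finrank K L L₁
  have hr2 : Module.finrank K K₁ * Module.finrank K₁ L₁ = Module.finrank K L₁ :=
    Module.finrank_mul_finrank K K₁ L₁
  have hnm : n ∣ F.factor.natDegree := by
    have h1 : n ∣ Module.finrank K K₁ * F.factor.natDegree := by
      rw [← hdeg1, hr2, ← hr1, hfin]
      exact dvd_mul_right _ _
    exact (hn.dvd_mul.mp h1).resolve_left hnd
  have hm : F.factor.natDegree = n := by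
    have h1 : F.factor.natDegree ≤ n := by
      rw [← hFdeg]
      exact natDegree_le_of_dvd hdvd hFmon.ne_zero
    exact le_antisymm h1 (Nat.le_of_dvd hirr.natDegree_pos hnm)
  have hFirr : Irreducible F := by
    have h1 : Associated F.factor F := by
      refine associated_of_dvd_of_natDegree_le hdvd hFmon.ne_zero ?_
      rw [hFdeg, hm]
    exact h1.irreducible hirr
  have hmin : minpoly K₁ θ₁ = F := (minpoly.eq_of_irreducible_of_monic hFirr hroot1 hFmon).symm
  have hfin1 : Module.finrank K₁ L₁ = n := by rw [hdeg1, hm]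
  obtain ⟨v₁, hv₁, hv₁v, hv₁n⟩ := exists_not_dvd K K₁ v n hnd
  refine ⟨L₁, iF, hL₁, iA, θ₁, v₁, hfin1, ?_, hmin, hv₁, hv₁v, ?_⟩
  · intro h
    have h1 := minpoly.natDegree_eq_one_iff.mpr h
    rw [hmin, hFdeg] at h1
    exact hn.one_lt.ne' h1
  · refine nonsplit_of_dvd K₁ L₁ v₁ n hfin1 ?_
    intro P hP hPv₁
    have hPv : P.LiesOver v := Ideal.LiesOver.trans P v₁ v
    have hPw : P.LiesOver (P.under (𝓞 L)) := ⟨rfl⟩
    have hw : (P.under (𝓞 L)).IsPrime := Ideal.IsPrime.under (𝓞 L) P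
    have hwv : (P.under (𝓞 L)).LiesOver v := Ideal.LiesOver.tower_bot P (P.under (𝓞 L)) v
    have e1 := ef_tower K K₁ L₁ v₁ P
    have e2 := ef_tower K L L₁ (P.under (𝓞 L)) P
    rw [ef_nonsplit K L v hns (P.under (𝓞 L)), hfin] at e2
    rw [e2] at e1
    have h1 : n ∣ (v₁.ramificationIdx (𝓞 K) * v₁.inertiaDeg (𝓞 K)) *
        (P.ramificationIdx (𝓞 K₁) * P.inertiaDeg (𝓞 K₁)) := by
      rw [← e1]
      exact dvd_mul_right _ _
    exact (hn.dvd_mul.mp h1).resolve_left hv₁n

end Pool.Agent.TS.H32
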