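import Mathlib
import Pool.Agent.Helper23_TS.StmtsG
import Pool.Agent.Helper27_UBT.CH3
import Pool.Agent.Helper9_UBT.Cheb
import Pool.Agent.Helper51_UBT.Her

/-! RF: bounded root field of prime degree, all `r`. -/

set_option autoImplicit false

open Polynomial NumberField IsDedekindDomain

namespace Pool.Agent.TS.H32

open _root_.UBT H12UBI

/-- the bound for a fixed root field -/
theorem fixedField (gl : GlStmt) (ex : ExStmt) (K L : Type) [Field K] [NumberField K]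
    [Field L] [NumberField L] [Algebra K L] (g D : ℕ) (hn : (g + 1).Prime)
    (hfin : Module.finrank K L = g + 1) :
    ∃ B : ℕ, ∀ θ : L, θ ∉ (algebraMap K L).range →
      ∀ (K₁ : Type) [Field K₁] [NumberField K₁] [Algebra K K₁], Module.finrank K K₁ ≤ D →
      ¬ (g + 1) ∣ Module.finrank K K₁ →
      ∀ C : Curve g K₁, C.h = (minpoly K θ).map (algebraMap K K₁) → orderOf C.infty ≤ B := by
  have hcheb : _root_.UBT.ChebStmt := _root_.UBT.H9.cheb _root_.UBT.ch3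
  obtain ⟨p, hp, -, v, hv, hpv, hns⟩ := hcheb K L (by rw [hfin]; exact hn) 0
  have hv0 : v ≠ ⊥ := by
    rintro rfl
    rw [Ideal.mem_bot, Nat.cast_eq_zero] at hpv
    exact hp.ne_zero hpv
  refine ⟨bg g p (Module.finrank ℚ K * D), ?_⟩
  intro θ hθ K₁ _ _ _ hD hnd C hC
  obtain ⟨L₁, _, _, _, θ₁, v₁, h1, h2, h3, h4, h5, h6⟩ :=
    ex K L K₁ (g + 1) hn hfin hnd v hv hv0 hns θ hθ
  have hpv₁ : ((p : ℕ) : 𝓞 K₁) ∈ v₁ := by
    have e1 : ((p : ℕ) : 𝓞 K) ∈ v₁.under (𝓞 K) := by rw [← h5.over]; exact hpv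
    have e2 : algebraMap (𝓞 K) (𝓞 K₁) ((p : ℕ) : 𝓞 K) ∈ v₁ := e1
    rwa [map_natCast] at e2
  have hd : Module.finrank ℚ K₁ ≤ Module.finrank ℚ K * D := by
    rw [← Module.finrank_mul_finrank ℚ K K₁]
    exact Nat.mul_le_mul_left _ hD
  exact gl K₁ L₁ g (Module.finrank ℚ K * D) p hn h1 hd hp v₁ h4 hpv₁ h6 θ₁ h2 C
    (by rw [hC, h3])

theorem rf (gl : GlStmt) (ex : ExStmt) : RfStmt := by
  classical
  intro K _ _ g D Δ hn
  obtain ⟨S, hSfin, hS⟩ := Pool.Agent.UBT51.her K Δ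
  have hB : ∀ F : IntermediateField K (AlgebraicClosure K), F ∈ S → ∃ B : ℕ,
      Module.finrank K F = g + 1 →
      ∀ (L : Type) [Field L] [NumberField L] [Algebra K L], Nonempty (L ≃ₐ[K] F) →
      ∀ θ : L, θ ∉ (algebraMap K L).range →
      ∀ (K₁ : Type) [Field K₁] [NumberField K₁] [Algebra K K₁], Module.finrank K K₁ ≤ D →
      ¬ (g + 1) ∣ Module.finrank K K₁ →
      ∀ C : Curve g K₁, C.h = (minpoly K θ).map (algebraMap K K₁) → orderOf C.infty ≤ B := by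
    intro F hF
    have _ : FiniteDimensional K F := hSfin F hF
    have _ : NumberField F := NumberField.of_module_finite K F
    by_cases hfin : Module.finrank K F = g + 1
    · obtain ⟨B, hB⟩ := fixedField gl ex K F g D hn hfin
      refine ⟨B, fun _ L _ _ _ ⟨φ⟩ θ hθ K₁ _ _ _ hD hnd C hC => ?_⟩
      refine hB (φ θ) ?_ K₁ hD hnd C ?_
      · rintro ⟨x, hx⟩
        exact hθ ⟨x, φ.injective (by rw [← hx, AlgEquiv.commutes])⟩
      · rw [hC]
        congr 1
        exact (minpoly.algEquiv_eq φ θ).symm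
    · exact ⟨0, fun h => absurd h hfin⟩
  choose B hB using hB
  refine ⟨∑ F ∈ S.attach, B F.1 F.2, ?_⟩
  intro L _ _ _ hfin hdisc θ hθ K₁ _ _ _ hD hnd C hC
  obtain ⟨F, hF, ⟨φ⟩⟩ := hS L hdisc
  have h1 : Module.finrank K F = g + 1 := by
    rw [← hfin]; exact φ.toLinearEquiv.finrank_eq.symm
  refine (hB F hF h1 L ⟨φ⟩ θ hθ K₁ hD hnd C hC).trans ?_
  exact Finset.single_le_sum (f := fun F : {x // x ∈ S} => B F.1 F.2) (fun _ _ => Nat.zero_le _)
    (Finset.mem_attach S ⟨F, hF⟩)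

end Pool.Agent.TS.H32
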